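import Mathlib

set_option autoImplicit false
set_option linter.unusedSectionVars false

/-! # Minimal counterexamples for flows with values in a subset of a group of exponent two -/

namespace Pool.Agent.TH676.A

open Finset

variable {V E : Type} [Fintype V] [DecidableEq V] [Fintype E] [DecidableEq E]
variable {Γ : Type} [AddCommGroup Γ]

/-- the group has exponent two -/
def Ex2 (Γ : Type) [AddCommGroup Γ] : Prop := ∀ x : Γ, x + x = 0

theorem Ex2.self (h : Ex2 Γ) (x : Γ) : x + x = 0 := h x

/-- the boundary of `f` at `v` -/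
def bd (src dst : E → V) (f : E → Γ) (v : V) : Γ :=
  ∑ e, ((if src e = v then f e else 0) + (if dst e = v then f e else 0))

/-- the edges with exactly one end in `Y` -/
def crs (src dst : E → V) (Y : Finset V) : Finset E :=
  univ.filter (fun e => ¬ (src e ∈ Y ↔ dst e ∈ Y))

theorem mem_crs {src dst : E → V} {Y : Finset V} {e : E} :
    e ∈ crs src dst Y ↔ ¬ (src e ∈ Y ↔ dst e ∈ Y) := by simp [crs]

/-- after deleting `D` and contracting `C` there is no bridge -/
def Br (src dst : E → V) (D C : Finset E) : Prop :=
  ∀ Y : Finset V, Disjoint (crs src dst Y) C → (crs src dst Y \ D).card ≠ 1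

/-- a flow which is zero on `D`, free on `C` and has values in `A` elsewhere -/
def FlowOn (A : Γ → Prop) (src dst : E → V) (D C : Finset E) : Prop :=
  ∃ f : E → Γ, (∀ v, bd src dst f v = 0) ∧ (∀ e ∈ D, f e = 0) ∧
    ∀ e, e ∉ D → e ∉ C → A (f e)

/-- the edges which are not loops -/
def nl (src dst : E → V) : Finset E := univ.filter (fun e => src e ≠ dst e)

theorem mem_nl {src dst : E → V} {e : E} : e ∈ nl src dst ↔ src e ≠ dst e := by simp [nl]

/-- replace `v` by `u` -/
def ctr (u v : V) (x : V) : V := if x = v then u else x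

/-- make the edges of `D` loops -/
def lp (src dst : E → V) (D : Finset E) (e : E) : V := if e ∈ D then src e else dst e

theorem bd_add (src dst : E → V) (f g : E → Γ) (v : V) :
    bd src dst (f + g) v = bd src dst f v + bd src dst g v := by
  unfold bd
  rw [← sum_add_distrib]
  refine sum_congr rfl fun e _ => ?_
  by_cases h1 : src e = v <;> by_cases h2 : dst e = v <;> simp [h1, h2] <;> abel

theorem bd_single (src dst : E → V) (e : E) (x : Γ) (v : V) :
    bd src dst (Pi.single e x) v = (if src e = v then x else 0) + (if dst e = v then x else 0) := by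
  unfold bd
  rw [sum_eq_single e]
  · simp
  · intro b _ hb
    simp [Pi.single_eq_of_ne hb]
  · intro h; exact absurd (mem_univ e) h

/-- changing the values on loops does not matter -/
theorem bd_congr (hΓ : Ex2 Γ) (src dst : E → V) (f g : E → Γ) (h : ∀ e, src e ≠ dst e → f e = g e) (v : V) :
    bd src dst f v = bd src dst g v := by
  unfold bd
  refine sum_congr rfl fun e _ => ?_
  by_cases he : src e = dst e
  · by_cases h1 : dst e = v
    · simp [he, h1, hΓ.self]
    · simp [he, h1]
  · rw [h e he]

/-- boundary after contraction -/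
theorem bd_ctr (src dst : E → V) (u v : V) (huv : u ≠ v) (f : E → Γ) (x : V) :
    bd (ctr u v ∘ src) (ctr u v ∘ dst) f x =
      if x = v then 0 else if x = u then bd src dst f u + bd src dst f v else bd src dst f x := by
  unfold bd
  by_cases hxv : x = v
  · subst hxv
    rw [if_pos rfl]
    refine sum_eq_zero fun e _ => ?_
    have h1 : ∀ y : V, ctr u x y ≠ x := by
      intro y hy
      unfold ctr at hy
      split_ifs at hy with h
      · exact huv hy
      · exact h hy
    simp [h1]
  · rw [if_neg hxv]
    by_cases hxu : x = u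
    · subst hxu
      rw [if_pos rfl, ← sum_add_distrib]
      refine sum_congr rfl fun e _ => ?_
      have h1 : ∀ y : V, (if ctr x v y = x then f e else 0)
          = (if y = x then f e else 0) + (if y = v then f e else 0) := by
        intro y
        unfold ctr
        by_cases h : y = v
        · simp [h, Ne.symm hxv]
        · simp [h]
      simp only [Function.comp]
      rw [h1, h1]; abel
    · rw [if_neg hxu]
      refine sum_congr rfl fun e _ => ?_
      have h1 : ∀ y : V, (ctr u v y = x) ↔ (y = x) := by
        intro y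
        unfold ctr
        by_cases h : y = v
        · simp only [h, if_true]
          exact ⟨fun h2 => absurd h2.symm hxu, fun h2 => absurd h2.symm hxv⟩
        · simp [h]
      simp only [Function.comp, h1]

theorem sum_bd (hΓ : Ex2 Γ) (src dst : E → V) (f : E → Γ) : ∑ v, bd src dst f v = 0 := by
  unfold bd
  rw [sum_comm]
  refine sum_eq_zero fun e _ => ?_
  rw [sum_add_distrib]
  simp [hΓ.self]

/-- a class of graphs closed under deletions and contractions of edges -/
structure MC (Cl : (E → V) → (E → V) → Prop) : Prop where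
  del : ∀ src dst (e : E), Cl src dst → src e ≠ dst e → Cl src (lp src dst {e})
  con : ∀ src dst (e : E), Cl src dst → src e ≠ dst e →
    Cl (ctr (src e) (dst e) ∘ src) (ctr (src e) (dst e) ∘ dst)

theorem crs_lp {src dst : E → V} {e : E} {Y : Finset V} :
    crs src (lp src dst {e}) Y = (crs src dst Y).erase e := by
  ext d
  rw [mem_crs, mem_erase, mem_crs]
  unfold lp
  by_cases h : d = e
  · simp [h]
  · simp [h]

theorem crs_ctr {src dst : E → V} (u v : V) {Y : Finset V} :
    crs (ctr u v ∘ src) (ctr u v ∘ dst) Y = crs src dst (univ.filter (fun x => ctr u v x ∈ Y)) := by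
  ext d
  rw [mem_crs, mem_crs]
  simp

theorem nl_lp {src dst : E → V} {e : E} : nl src (lp src dst {e}) = (nl src dst).erase e := by
  ext d
  rw [mem_nl, mem_erase, mem_nl]
  unfold lp
  by_cases h : d = e
  · simp [h]
  · simp [h]

theorem nl_ctr_sub {src dst : E → V} (u v : V) :
    nl (ctr u v ∘ src) (ctr u v ∘ dst) ⊆ nl src dst := by
  intro d hd
  rw [mem_nl] at hd ⊢
  intro h
  exact hd (by simp [h])

theorem not_nl_ctr {src dst : E → V} (e : E) :
    e ∉ nl (ctr (src e) (dst e) ∘ src) (ctr (src e) (dst e) ∘ dst) := by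
  rw [mem_nl]
  unfold ctr
  simp

/-- **Flows on minors.**  If all bridgeless graphs of the class with fewer than `M` proper edges
have a flow with values in `A`, then every graph of the class with at most `M` edges has the flows
which correspond to its bridgeless proper minors. -/
theorem crit_aux (hΓ : Ex2 Γ) {A : Γ → Prop} {Cl : (E → V) → (E → V) → Prop} (hCl : MC Cl) (M : ℕ)
    (hM : ∀ src dst, Cl src dst → Br src dst ∅ ∅ → (nl src dst).card < M → FlowOn A src dst ∅ ∅)
    (n : ℕ) : ∀ (src dst : E → V) (D C : Finset E), Cl src dst → Disjoint D C →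
      ((nl src dst) ∩ (D ∪ C)).card = n → Br src dst D C →
      (nl src dst).card ≤ M → ((nl src dst).card < M ∨ 0 < n) → FlowOn A src dst D C := by
  induction n using Nat.strong_induction_on with
  | _ n ih =>
  intro src dst D C hG hDC hn hB hM1 hm
  by_cases hD : ∃ e ∈ D, src e ≠ dst e
  · obtain ⟨e, heD, hne⟩ := hD
    have heC : e ∉ C := fun h => disjoint_left.mp hDC heD h
    have hmem : e ∈ nl src dst ∩ (D ∪ C) := mem_inter.mpr ⟨mem_nl.mpr hne, mem_union_left _ heD⟩
    have hn0 : 0 < n := by rw [← hn]; exact card_pos.mpr ⟨e, hmem⟩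
    have hcard : (nl src (lp src dst {e}) ∩ (D ∪ C)).card = n - 1 := by
      rw [nl_lp, erase_inter, card_erase_of_mem hmem, hn]
    have hlt : (nl src (lp src dst {e})).card < M := by
      rw [nl_lp]
      exact lt_of_lt_of_le (card_erase_lt_of_mem (mem_nl.mpr hne)) hM1
    obtain ⟨f, hf0, hf1, hf2⟩ := ih (n - 1) (by omega) src (lp src dst {e}) D C
      (hCl.del _ _ e hG hne) hDC hcard (by
      intro Y hY
      rw [crs_lp] at hY ⊢
      have h1 : (crs src dst Y).erase e \ D = crs src dst Y \ D := by
        ext d
        simp only [mem_sdiff, mem_erase]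
        constructor
        · rintro ⟨⟨_, h2⟩, h3⟩; exact ⟨h2, h3⟩
        · rintro ⟨h2, h3⟩; exact ⟨⟨fun h => h3 (h ▸ heD), h2⟩, h3⟩
      rw [h1]
      refine hB Y ?_
      rw [disjoint_left] at hY ⊢
      intro d hd h2
      exact hY (mem_erase.mpr ⟨fun h => heC (h ▸ h2), hd⟩) h2) hlt.le (Or.inl hlt)
    refine ⟨f, fun v => ?_, hf1, hf2⟩
    rw [← hf0 v]
    unfold bd
    refine sum_congr rfl fun d _ => ?_
    unfold lp
    by_cases h : d = e
    · subst h
      rw [hf1 d heD]; simp
    · simp [h]
  · push Not at hD
    by_cases hC : ∃ e ∈ C, src e ≠ dst e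
    · obtain ⟨e, heC, hne⟩ := hC
      have heD : e ∉ D := fun h => disjoint_left.mp hDC h heC
      set s1 := ctr (src e) (dst e) ∘ src with hs1
      set d1 := ctr (src e) (dst e) ∘ dst with hd1
      have hnot : e ∉ nl s1 d1 := not_nl_ctr e
      have hsub : nl s1 d1 ⊆ nl src dst := nl_ctr_sub _ _
      have hlt : (nl s1 d1).card < M := by
        refine lt_of_lt_of_le ?_ hM1
        exact card_lt_card ⟨hsub, fun h => hnot (h (mem_nl.mpr hne))⟩
      have hlt2 : ((nl s1 d1) ∩ (D ∪ C)).card < n := by
        rw [← hn]
        refine card_lt_card ⟨inter_subset_inter_right hsub, fun h => ?_⟩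
        have h3 := h (mem_inter.mpr ⟨mem_nl.mpr hne, mem_union_right _ heC⟩)
        exact hnot (mem_inter.mp h3).1
      obtain ⟨f, hf0, hf1, hf2⟩ := ih _ hlt2 s1 d1 D C (hCl.con _ _ e hG hne) hDC rfl (by
          intro Y hY
          rw [hs1, hd1, crs_ctr] at hY ⊢
          exact hB _ hY) hlt.le (Or.inl hlt)
      -- the value of the contracted edge is corrected
      have hb : ∀ x, x ≠ src e → x ≠ dst e → bd src dst f x = 0 := by
        intro x h1 h2
        have h3 := hf0 x
        rw [hs1, hd1, bd_ctr src dst _ _ hne, if_neg h2, if_neg h1] at h3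
        exact h3
      have hb2 : bd src dst f (src e) = bd src dst f (dst e) := by
        have h3 := hf0 (src e)
        rw [hs1, hd1, bd_ctr src dst _ _ hne, if_neg hne, if_pos rfl] at h3
        have h4 := congrArg (· + bd src dst f (dst e)) h3
        simp only [add_assoc, hΓ.self, add_zero, zero_add] at h4
        exact h4
      refine ⟨f + Pi.single e (bd src dst f (dst e)), fun v => ?_, fun d hd => ?_, fun d h1 h2 => ?_⟩
      · rw [bd_add, bd_single]
        by_cases h1 : src e = v
        · have h2 : dst e ≠ v := fun h => hne (h1.trans h.symm)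
          rw [if_pos h1, if_neg h2, add_zero, ← h1, hb2, hΓ.self]
        · by_cases h2 : dst e = v
          · rw [if_neg h1, if_pos h2, zero_add, ← h2, hΓ.self]
          · rw [if_neg h1, if_neg h2, hb v (Ne.symm h1) (Ne.symm h2)]; simp
      · have h1 : d ≠ e := fun h => heD (h ▸ hd)
        rw [Pi.add_apply, Pi.single_eq_of_ne h1, add_zero]
        exact hf1 d hd
      · have h3 : d ≠ e := fun h => h2 (h ▸ heC)
        rw [Pi.add_apply, Pi.single_eq_of_ne h3, add_zero]
        exact hf2 d h1 h2
    · push Not at hC
      have hz : ∀ e ∈ D ∪ C, src e = dst e := by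
        intro e he
        rcases mem_union.mp he with h | h
        · exact hD e h
        · exact hC e h
      have hn0 : n = 0 := by
        rw [← hn, card_eq_zero, eq_empty_iff_forall_notMem]
        intro e he
        rw [mem_inter, mem_nl] at he
        exact he.1 (hz e he.2)
      have hm' : (nl src dst).card < M := by omega
      have hz2 : ∀ Y e, e ∈ crs src dst Y → e ∉ D ∪ C := by
        intro Y e he h
        rw [mem_crs, hz e h] at he
        exact he Iff.rfl
      obtain ⟨f, hf0, _, hf1⟩ := hM src dst hG (by
        intro Y _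
        have h1 : crs src dst Y \ ∅ = crs src dst Y \ D := by
          ext e
          simp only [sdiff_empty, mem_sdiff]
          constructor
          · intro h; exact ⟨h, fun h2 => hz2 Y e h (mem_union_left _ h2)⟩
          · intro h; exact h.1
        rw [h1]
        refine hB Y ?_
        rw [disjoint_left]
        intro e he h2
        exact hz2 Y e he (mem_union_right _ h2)) hm'
      refine ⟨fun e => if e ∈ D then 0 else f e, fun v => ?_, fun e he => if_pos he, ?_⟩
      · rw [← hf0 v]
        refine bd_congr hΓ src dst _ _ (fun e he => ?_) v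
        exact if_neg (fun h => he (hz e (mem_union_left _ h)))
      · intro e h1 _
        change A (if e ∈ D then 0 else f e)
        rw [if_neg h1]
        exact hf1 e (notMem_empty _) (notMem_empty _)

/-- a counterexample all of whose smaller relatives have nowhere-zero flows -/
structure MinCx (A : Γ → Prop) (src dst : E → V) : Prop where
  br : Br src dst ∅ ∅
  nf : ¬ FlowOn A src dst ∅ ∅
  crit : ∀ D C, Disjoint D C → (∃ e ∈ D ∪ C, src e ≠ dst e) → Br src dst D C → FlowOn A src dst D C

/-- **The existence of a minimal counterexample.** -/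
theorem exists_minCx (hΓ : Ex2 Γ) {A : Γ → Prop} {Cl : (E → V) → (E → V) → Prop} (hCl : MC Cl) (src dst : E → V)
    (h1 : Cl src dst) (h2 : Br src dst ∅ ∅) (h3 : ¬ FlowOn A src dst ∅ ∅) :
    ∃ s d : E → V, Cl s d ∧ MinCx A s d := by
  classical
  have hex : ∃ m, ∃ s d : E → V, Cl s d ∧ Br s d ∅ ∅ ∧ ¬ FlowOn A s d ∅ ∅ ∧ (nl s d).card = m :=
    ⟨_, src, dst, h1, h2, h3, rfl⟩
  obtain ⟨s, d, hs1, hs2, hs3, hs4⟩ := Nat.find_spec hex
  refine ⟨s, d, hs1, hs2, hs3, ?_⟩
  intro D C hDC hne hB
  refine crit_aux hΓ hCl (nl s d).card ?_ _ s d D C hs1 hDC rfl hB le_rfl (Or.inr ?_)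
  · intro s' d' h5 h6 h7
    by_contra h8
    rw [hs4] at h7
    exact Nat.find_min hex h7 ⟨s', d', h5, h6, h8, rfl⟩
  · obtain ⟨e, he, he2⟩ := hne
    exact card_pos.mpr ⟨e, mem_inter.mpr ⟨mem_nl.mpr he2, he⟩⟩

end Pool.Agent.TH676.A
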