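import Pool.Agent.TH676.A.Crit

set_option autoImplicit false
set_option linter.unusedSectionVars false
set_option synthInstance.maxHeartbeats 400000
set_option synthInstance.maxSize 2048

/-! # Edge cuts of a minimal counterexample -/

namespace Pool.Agent.TH676.A

open Finset

variable {V E : Type} [Fintype V] [DecidableEq V] [Fintype E] [DecidableEq E]
variable {Γ : Type} [AddCommGroup Γ]

/-- the properties of the set `A` of allowed values in the group -/
structure Alg (A : Γ → Prop) : Prop where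
  two : Ex2 Γ
  zero : ¬ A 0
  hom : ∀ a b a' b' : Γ, A a → A b → A (a + b) → A a' → A b' → A (a' + b') →
    ∃ σ : Γ →+ Γ, (∀ x, A x → A (σ x)) ∧ σ a = a' ∧ σ b = b'

theorem Ex2.eq (hΓ : Ex2 Γ) {a b : Γ} (h : a + b = 0) : a = b := by
  have h1 := congrArg (· + b) h
  simpa only [add_assoc, hΓ.self, add_zero, zero_add] using h1

theorem Ex2.three (hΓ : Ex2 Γ) {a b c : Γ} (h : a + (b + c) = 0) : c = a + b := by
  rw [← add_assoc] at h
  exact (hΓ.eq h).symm

/-- the vertex is incident with a proper edge -/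
def Nis (src dst : E → V) (x : V) : Prop := ∃ e, src e ≠ dst e ∧ (src e = x ∨ dst e = x)

/-- the sum of a flow over an edge cut -/
theorem sum_cut (hΓ : Ex2 Γ) {src dst : E → V} {f : E → Γ} {Y : Finset V}
    (h : ∀ v ∈ Y, bd src dst f v = 0) : ∑ e ∈ crs src dst Y, f e = 0 := by
  have h1 : ∑ v ∈ Y, bd src dst f v = 0 := sum_eq_zero h
  unfold bd at h1
  rw [sum_comm] at h1
  refine Eq.trans ?_ h1
  unfold crs
  rw [sum_filter]
  refine sum_congr rfl fun e _ => ?_
  rw [sum_add_distrib, sum_ite_eq, sum_ite_eq]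
  by_cases h2 : src e ∈ Y <;> by_cases h3 : dst e ∈ Y <;> simp [h2, h3, hΓ.self]

/-- flows on the two sides of a cut which agree up to an automorphism give a flow -/
theorem glue {A : Γ → Prop} {src dst : E → V} {f1 f2 : E → Γ} {Y : Finset V} (σ : Γ →+ Γ)
    (hσ : ∀ x, A x → A (σ x)) (h1 : ∀ v ∈ Y, bd src dst f1 v = 0)
    (h2 : ∀ v, v ∉ Y → bd src dst f2 v = 0)
    (hn1 : ∀ e, (src e ∈ Y ∨ dst e ∈ Y) → A (f1 e))
    (hn2 : ∀ e, src e ∉ Y → dst e ∉ Y → A (f2 e))
    (ha : ∀ e ∈ crs src dst Y, f1 e = σ (f2 e)) : FlowOn A src dst ∅ ∅ := by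
  refine ⟨fun e => if src e ∈ Y ∨ dst e ∈ Y then f1 e else σ (f2 e), fun v => ?_,
    fun e he => absurd he (notMem_empty _), fun e _ _ => ?_⟩
  · by_cases hv : v ∈ Y
    · rw [← h1 v hv]
      unfold bd
      refine sum_congr rfl fun e _ => ?_
      by_cases h3 : src e = v
      · have : src e ∈ Y := h3 ▸ hv
        simp [this]
      · by_cases h4 : dst e = v
        · have : dst e ∈ Y := h4 ▸ hv
          simp [this]
        · simp [h3, h4]
    · have h5 : σ (bd src dst f2 v) = 0 := by rw [h2 v hv, map_zero]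
      rw [← h5]
      unfold bd
      rw [map_sum]
      refine sum_congr rfl fun e _ => ?_
      rw [map_add]
      beta_reduce
      have key : (src e = v ∨ dst e = v) →
          (if src e ∈ Y ∨ dst e ∈ Y then f1 e else σ (f2 e)) = σ (f2 e) := by
        intro h6
        split_ifs with h7
        · refine ha e (mem_crs.mpr ?_)
          rcases h6 with h6 | h6
          · have : src e ∉ Y := h6 ▸ hv
            tauto
          · have : dst e ∉ Y := h6 ▸ hv
            tauto
        · rfl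
      by_cases h3 : src e = v
      · rw [if_pos h3, if_pos h3, key (Or.inl h3)]
        by_cases h4 : dst e = v
        · rw [if_pos h4, if_pos h4]
        · rw [if_neg h4, if_neg h4, map_zero]
      · rw [if_neg h3, if_neg h3, map_zero]
        by_cases h4 : dst e = v
        · rw [if_pos h4, if_pos h4, key (Or.inr h4)]
        · rw [if_neg h4, if_neg h4, map_zero]
  · change A (if src e ∈ Y ∨ dst e ∈ Y then f1 e else σ (f2 e))
    split_ifs with h
    · exact hn1 e h
    · rw [not_or] at h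
      exact hσ _ (hn2 e h.1 h.2)

/-- contraction only -/
theorem MinCx.con {A : Γ → Prop} {src dst : E → V} (h : MinCx A src dst) (C : Finset E)
    (hne : ∃ e ∈ C, src e ≠ dst e) : FlowOn A src dst ∅ C := by
  refine h.crit ∅ C (disjoint_empty_left _) (by simpa using hne) ?_
  intro Y _
  have := h.br Y (disjoint_empty_right _)
  simpa using this

/-- the two flows at a cut -/
theorem MinCx.sides {A : Γ → Prop} {src dst : E → V} (h : MinCx A src dst) (Y : Finset V)
    (h1 : ∃ e, src e ≠ dst e ∧ src e ∈ Y ∧ dst e ∈ Y)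
    (h2 : ∃ e, src e ≠ dst e ∧ src e ∉ Y ∧ dst e ∉ Y) :
    ∃ f1 f2 : E → Γ, (∀ v, bd src dst f1 v = 0) ∧ (∀ v, bd src dst f2 v = 0) ∧
      (∀ e, (src e ∈ Y ∨ dst e ∈ Y) → A (f1 e)) ∧
      (∀ e, (src e ∉ Y ∨ dst e ∉ Y) → A (f2 e)) := by
  obtain ⟨f1, a1, _, a3⟩ := MinCx.con h (univ.filter (fun e => src e ∉ Y ∧ dst e ∉ Y)) (by
    obtain ⟨e, he, he2⟩ := h2
    exact ⟨e, by simpa using he2, he⟩)
  obtain ⟨f2, b1, _, b3⟩ := MinCx.con h (univ.filter (fun e => src e ∈ Y ∧ dst e ∈ Y)) (by
    obtain ⟨e, he, he2⟩ := h1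
    exact ⟨e, by simpa using he2, he⟩)
  refine ⟨f1, f2, a1, b1, fun e he => a3 e (notMem_empty _) ?_,
    fun e he => b3 e (notMem_empty _) ?_⟩
  · simp only [mem_filter, mem_univ, true_and]; tauto
  · simp only [mem_filter, mem_univ, true_and]; tauto

/-- every edge cut with proper edges on both sides has at least three edges -/
theorem cut3 {A : Γ → Prop} (hA : Alg A) {src dst : E → V} (h : MinCx A src dst) {Y : Finset V} {x y : V} (hx : x ∈ Y)
    (hy : y ∉ Y) (nx : Nis src dst x) (ny : Nis src dst y) : 3 ≤ (crs src dst Y).card := by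
  by_contra hlt
  have h1 : (crs src dst Y).card ≠ 1 := by
    have := h.br Y (disjoint_empty_right _)
    simpa using this
  have h02 : (crs src dst Y).card = 0 ∨ (crs src dst Y).card = 2 := by omega
  rcases h02 with h0 | h2
  · rw [card_eq_zero] at h0
    have hin : ∀ e, (src e ∈ Y ↔ dst e ∈ Y) := by
      intro e
      by_contra hc
      have := mem_crs.mpr hc
      rw [h0] at this
      exact absurd this (notMem_empty _)
    obtain ⟨f1, f2, a1, a2, a3, a4⟩ := MinCx.sides h Y (by
      obtain ⟨e, he, he2⟩ := nx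
      refine ⟨e, he, ?_⟩
      rcases he2 with he2 | he2
      · have : src e ∈ Y := he2 ▸ hx
        exact ⟨this, (hin e).mp this⟩
      · have : dst e ∈ Y := he2 ▸ hx
        exact ⟨(hin e).mpr this, this⟩) (by
      obtain ⟨e, he, he2⟩ := ny
      refine ⟨e, he, ?_⟩
      rcases he2 with he2 | he2
      · have : src e ∉ Y := he2 ▸ hy
        exact ⟨this, fun hd => this ((hin e).mpr hd)⟩
      · have : dst e ∉ Y := he2 ▸ hy
        exact ⟨fun hd => this ((hin e).mp hd), this⟩)
    refine h.nf (glue (Y := Y) (f1 := f1) (f2 := f2) (AddMonoidHom.id Γ) (fun x hx => hx)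
      (fun v _ => a1 v) (fun v _ => a2 v) a3 (fun e he _ => a4 e (Or.inl he)) ?_)
    intro e he
    rw [h0] at he
    exact absurd he (notMem_empty _)
  · obtain ⟨e1, e2, hne, hY⟩ := card_eq_two.mp h2
    have he1 : e1 ∈ crs src dst Y := by rw [hY]; simp
    obtain ⟨f, hf1, _, hf2⟩ := MinCx.con h {e1} ⟨e1, by simp, fun heq => by
      rw [mem_crs, heq] at he1; exact he1 Iff.rfl⟩
    have hsum := sum_cut hA.two (src := src) (dst := dst) (f := f) (Y := Y) (fun v _ => hf1 v)
    rw [hY, sum_pair hne] at hsum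
    refine h.nf ⟨f, hf1, fun e he => absurd he (notMem_empty _), fun e _ _ => ?_⟩
    by_cases hee : e = e1
    · subst hee
      rw [hA.two.eq hsum]
      exact hf2 e2 (notMem_empty _) (by simpa using hne.symm)
    · exact hf2 e (notMem_empty _) (by simpa using hee)

/-- every edge cut with at least two vertices on both sides has at least four edges -/
theorem cut4 {A : Γ → Prop} (hA : Alg A) {src dst : E → V} (h : MinCx A src dst) {Y : Finset V} {x x2 y y2 : V} (hx : x ∈ Y)
    (hx2 : x2 ∈ Y) (hxx : x ≠ x2) (hy : y ∉ Y) (hy2 : y2 ∉ Y) (hyy : y ≠ y2)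
    (nx : Nis src dst x) (nx2 : Nis src dst x2) (ny : Nis src dst y) (ny2 : Nis src dst y2) :
    4 ≤ (crs src dst Y).card := by
  by_contra hlt
  have h3 : (crs src dst Y).card = 3 := by
    have := cut3 hA h hx hy nx ny
    omega
  -- a side without proper edges is too small
  have side : ∀ (p p2 : V) (Q : V → Prop), Q p → Q p2 → p ≠ p2 → Nis src dst p → Nis src dst p2 →
      (∀ e, src e ≠ dst e → Q (src e) → ¬ Q (dst e)) →
      (∀ e, (Q (src e) ↔ ¬ Q (dst e)) → e ∈ crs src dst Y) → False := by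
    intro p p2 Q hp hp2 hpp np np2 hQ hQ2
    have c1 : 3 ≤ (crs src dst {p}).card :=
      cut3 hA h (x := p) (y := p2) (mem_singleton_self _) (by simpa using hpp.symm) np np2
    have c2 : 3 ≤ (crs src dst {p2}).card :=
      cut3 hA h (x := p2) (y := p) (mem_singleton_self _) (by simpa using hpp) np2 np
    have hsub : ∀ q, Q q → ∀ e ∈ crs src dst {q}, e ∈ crs src dst Y ∧
        (src e ≠ dst e) ∧ ((src e = q ∧ ¬ Q (dst e)) ∨ (dst e = q ∧ ¬ Q (src e))) := by
      intro q hq e he
      rw [mem_crs, mem_singleton, mem_singleton] at he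
      have hne : src e ≠ dst e := fun heq => he (by rw [heq])
      by_cases hs : src e = q
      · have h5 : Q (src e) := hs ▸ hq
        have h6 := hQ e hne h5
        exact ⟨hQ2 e ⟨fun _ => h6, fun _ => h5⟩, hne, Or.inl ⟨hs, h6⟩⟩
      · have hd : dst e = q := by tauto
        have h5 : Q (dst e) := hd ▸ hq
        have h6 : ¬ Q (src e) := fun h6 => hQ e hne h6 h5
        exact ⟨hQ2 e ⟨fun h7 => absurd h7 h6, fun h7 => absurd h5 h7⟩, hne, Or.inr ⟨hd, h6⟩⟩
    have hdis : Disjoint (crs src dst {p}) (crs src dst {p2}) := by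
      rw [disjoint_left]
      intro e he he2
      obtain ⟨_, _, h5⟩ := hsub p hp e he
      obtain ⟨_, _, h6⟩ := hsub p2 hp2 e he2
      rcases h5 with ⟨a1, a2⟩ | ⟨a1, a2⟩ <;> rcases h6 with ⟨b1, b2⟩ | ⟨b1, b2⟩
      · exact hpp (a1.symm.trans b1)
      · exact a2 (b1 ▸ hp2)
      · exact b2 (a1 ▸ hp)
      · exact hpp (a1.symm.trans b1)
    have hle : (crs src dst {p} ∪ crs src dst {p2}).card ≤ (crs src dst Y).card :=
      card_le_card (union_subset (fun e he => (hsub p hp e he).1)
        (fun e he => (hsub p2 hp2 e he).1))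
    rw [card_union_of_disjoint hdis] at hle
    omega
  obtain ⟨f1, f2, a1, a2, a3, a4⟩ := MinCx.sides h Y (by
    by_contra hc
    push Not at hc
    exact side x x2 (fun z => z ∈ Y) hx hx2 hxx nx nx2 hc (fun e he => mem_crs.mpr (by tauto)))
    (by
    by_contra hc
    push Not at hc
    exact side y y2 (fun z => z ∉ Y) hy hy2 hyy ny ny2 (fun e he h5 => by
      rw [not_not]; exact hc e he h5) (fun e he => mem_crs.mpr (by tauto)))
  obtain ⟨e1, e2, e3, h12, h13, h23, hY⟩ := card_eq_three.mp h3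
  have s1 := sum_cut hA.two (src := src) (dst := dst) (f := f1) (Y := Y) (fun v _ => a1 v)
  have s2 := sum_cut hA.two (src := src) (dst := dst) (f := f2) (Y := Y) (fun v _ => a2 v)
  have hm1 : e1 ∉ ({e2, e3} : Finset E) := by simp [h12, h13]
  rw [hY, sum_insert hm1, sum_pair h23] at s1 s2
  have hm : ∀ e, e = e1 ∨ e = e2 ∨ e = e3 → A (f1 e) ∧ A (f2 e) := by
    intro e he
    have he' : e ∈ crs src dst Y := by rw [hY]; simpa using he
    rw [mem_crs] at he'
    exact ⟨a3 e (by tauto), a4 e (by tauto)⟩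
  have t1 := hA.two.three s1
  have u1 := hA.two.three s2
  obtain ⟨σ, hσ, g1, g2⟩ := hA.hom (f2 e1) (f2 e2) (f1 e1) (f1 e2)
    (hm e1 (Or.inl rfl)).2 (hm e2 (Or.inr (Or.inl rfl))).2 (u1 ▸ (hm e3 (Or.inr (Or.inr rfl))).2)
    (hm e1 (Or.inl rfl)).1 (hm e2 (Or.inr (Or.inl rfl))).1 (t1 ▸ (hm e3 (Or.inr (Or.inr rfl))).1)
  refine h.nf (glue (Y := Y) (f1 := f1) (f2 := f2) σ hσ (fun v _ => a1 v) (fun v _ => a2 v) a3
    (fun e he _ => a4 e (Or.inl he)) ?_)
  intro e he
  rw [hY, mem_insert, mem_insert, mem_singleton] at he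
  rcases he with rfl | rfl | rfl
  · exact g1.symm
  · exact g2.symm
  · rw [t1, u1, map_add, g1, g2]

end Pool.Agent.TH676.A
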